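import Pool.Agent.Helper30.PB.All
import Pool.Agent.Helper80.LK.M_ODD
import Pool.Agent.Helper53.LK.M_DVQ
import Pool.Agent.Helper2.LK.M_DIV
import Pool.Agent.Helper61.LK.M_EXA
import Pool.Agent.Helper70.LK.M_AAN
import Pool.Agent.Helper63.LK.M_MR3
import Pool.Agent.Helper36.LK.M_SVU
import Pool.Agent.Helper44.LK.M_CN1
import Pool.Agent.Helper85.LK.M_CN2
import Pool.Agent.Helper7.LK.M_CN3
import Pool.Agent.Helper8.LK.M_PPP
import Pool.Agent.Helper51.LK.M_PWF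
import Pool.Agent.Helper29.LK.M_STR
import Pool.Agent.Helper72.LK.M_SUR
import Pool.Agent.Helper88.LK.M_FN2

/-!
# Project LK: assembly
-/

set_option autoImplicit false

namespace Pool.Agent.Helper30.LK

open Pool.Agent

theorem pAAN : StAAN := Helper70.LK.hAAN Helper80.LK.hODD (Helper61.LK.hEXA Helper53.LK.hDVQ Helper2.LK.hDIV)
  Helper2.LK.hDIV Helper30.PB.pPRP

theorem pSVU : StSVU := Helper36.LK.hSVU Helper18.TR.fl Helper15.AB.hMT

theorem pMR3 : StMR3 := Helper63.LK.hMR3 Helper48.BK.tSW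

theorem pSUR : StSUR := Helper72.LK.hSUR Helper29.LK.hSTR (Helper44.LK.hCN1 pSVU Helper15.AB.hMT)
  (Helper7.LK.hCN3 pSVU Helper15.AB.hMT pMR3) (Helper8.LK.hPPP (Helper85.LK.hCN2 pSVU Helper15.AB.hMT pMR3))
  Helper51.LK.hPWF

theorem pFN2 : StFN2 := Helper88.LK.hFN2 pSUR Helper30.PB.pPIP Helper80.LK.hODD Helper53.LK.hDVQ

end Pool.Agent.Helper30.LK
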