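import Pool.Agent.Helper30.PB.St
import Pool.Agent.Helper18.TR.St
import Pool.Agent.Helper15.AB.StMid

/-!
# Project LK (MP_2d2425_nt): lower bounds for the least `k` with `2 n + σ(k)` prime.  Statements of the modules, with proofs.

THEOREM 1 (`StAAN`). For every `C` almost all `n` have no `k ≤ C (log n) ^ 2` with `2 n + σ(k)` prime.
THEOREM 2 (`StFN2`). For infinitely many `n` there is no `k ≤ c (log n) ^ 2 (log log n) ^ 4 / (log log log n) ^ 2` with `2 n + σ(k)` prime.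

`σ(k)` is odd only for `k = m ^ 2` and `k = 2 m ^ 2`. Typical `σ(m ^ 2)`, `σ(2 m ^ 2)` are divisible by every fixed prime `q ≡ 1 (3)` (if a prime `p` with `q ∣ p ^ 2 + p + 1` exactly divides `m`). Theorem 2: `2 n` is chosen modulo all odd primes `l ≤ x`: `2 n ≡ - rs x l` for `l ≤ x / 2`, and the surviving
`m ≤ M` (the set `Sv x M`) are removed one by one with the primes in `(x / 2, x]`. `3 ∣ σ(2 m ^ 2)` always.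
-/

set_option autoImplicit false

noncomputable section

namespace Pool.Agent.Helper30.LK

open Finset ArithmeticFunction Filter
open Pool.Agent.Helper18.TR (StFL)
open Pool.Agent.Helper15.AB (StMT)
open Pool.Agent.Helper48.BK (StSW th)
open Pool.Agent.Helper30.PB (StPRP StPIP)

open Classical in
/-- the value of `σ(m ^ 2)` modulo `l` which is removed -/
def rs (x l : ℕ) : ℕ := if l % 3 = 2 ∧ Real.log x ^ 13 < (l : ℝ) then 3 else 0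

open Classical in
/-- the surviving `m ≤ M` -/
def Sv (x M : ℕ) : Finset ℕ :=
  (Icc 1 M).filter (fun m => ∀ l : ℕ, l.Prime → l ≠ 2 → 2 * l ≤ x → ¬ sigma 1 (m ^ 2) ≡ rs x l [MOD l])

/-- the primes `p` such that `p ^ 2 + p + 1` has no prime factor `≤ x / 2` -/
def Al (x p : ℕ) : Prop := p.Prime ∧ ∀ l : ℕ, l.Prime → 2 * l ≤ x → ¬ l ∣ p ^ 2 + p + 1

/-- the surviving primes -/
def Al3 (x p : ℕ) : Prop := Al x p ∧ ∀ l : ℕ, l.Prime → l % 3 = 2 → Real.log x ^ 13 < (l : ℝ) → 2 * l ≤ x →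
  ¬ p ^ 2 + p + 1 ≡ 3 [MOD l]

/-- squareful integers -/
def Pw (s : ℕ) : Prop := ∀ p : ℕ, p.Prime → p ∣ s → p ^ 2 ∣ s

/-! ## A. Almost all `n` -/

/-- (ODD, no hypotheses.) PROOF. `σ(p ^ e) = 1 + p + .. + p ^ e` is odd for odd `p` only if `e` is even. `σ` is multiplicative, so all odd primes have even exponents in `k`. -/
def StODD : Prop := ∀ k : ℕ, 1 ≤ k → Odd (sigma 1 k) → ∃ m : ℕ, 1 ≤ m ∧ (k = m ^ 2 ∨ k = 2 * m ^ 2)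

/-- (DVQ, no hypotheses.) PROOF. `m = p m'`, `p ∤ m'`: `m ^ 2 = p ^ 2 m' ^ 2`, `2 m ^ 2 = p ^ 2 (2 m' ^ 2)` with coprime factors, `σ(p ^ 2) = p ^ 2 + p + 1`. Second part: `2 m ^ 2 = 2 ^ (2 a + 1) m' ^ 2`, `m'` odd, and `3 ∣ σ(2 ^ (2 a + 1)) = 4 ^ (a + 1) - 1`. -/
def StDVQ : Prop := (∀ q p m : ℕ, p.Prime → p ≠ 2 → q ∣ p ^ 2 + p + 1 → p ∣ m → ¬ p ^ 2 ∣ m →
  q ∣ sigma 1 (m ^ 2) ∧ q ∣ sigma 1 (2 * m ^ 2)) ∧ ∀ m : ℕ, 1 ≤ m → 3 ∣ sigma 1 (2 * m ^ 2)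

/-- (DIV, no hypotheses.) PROOF. The sum of `1 / p` over the primes `p ≡ a (q)` diverges (Mathlib: `ArithmeticFunction.vonMangoldt.not_summable_residueClass_prime_div`), so for a finite set `P` of such primes `≥ p₀` one has `∏_{p ∈ P} (1 - 1 / p) ≤ exp(- ∑ 1 / p) ≤ ε / 2`. With `D = ∏_{p ∈ P} p` the integers prime to `D`
have the density `∏ (1 - 1 / p) = φ(D) / D`: their number in `[1, N]` is at most `(N / D + 1) φ(D) ≤ (ε / 2) N + D` (`Nat.filter_coprime_Ico_eq_totient` for the blocks of length `D`). -/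
def StDIV : Prop := ∀ q a p₀ : ℕ, 1 ≤ q → Nat.Coprime a q → ∀ ε : ℝ, 0 < ε → ∃ P : Finset ℕ,
  (∀ p ∈ P, p.Prime ∧ p % q = a % q ∧ p₀ ≤ p) ∧ ∃ N₀ : ℕ, ∀ N : ℕ, N₀ ≤ N →
    (((Icc 1 N).filter (fun n => ∀ p ∈ P, ¬ p ∣ n)).card : ℝ) ≤ ε * N

/-- (EXA, assume `hV : StDVQ`, `hD : StDIV`.) PROOF. `q ≡ 1 (3)`: there is `r` with `q ∣ r ^ 2 + r + 1` (an element of order 3 in `ZMod q`), `r` prime to `q`. `P` from DIV for `q`, `r`, `p₀ = ⌈8 / ε⌉ + 3`, `ε / 2`. If some `p ∈ P` divides `m` and `p ^ 2 ∤ m` for all `p ∈ P`, then DVQ applies (`p ^ 2 + p + 1 ≡ r ^ 2 + r + 1 ≡ 0` modulo `q`).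
The exceptional `m` are at most `(ε / 2) M + ∑_{p ∈ P} M / p ^ 2 ≤ (ε / 2) M + M ∑_{j ≥ p₀} 1 / j ^ 2 ≤ ε M`. -/
def StEXA : Prop := ∀ q : ℕ, q.Prime → q % 3 = 1 → ∀ ε : ℝ, 0 < ε → ∃ M₀ : ℕ, ∀ M : ℕ, M₀ ≤ M →
  (((Icc 1 M).filter (fun m => ¬ (q ∣ sigma 1 (m ^ 2) ∧ q ∣ sigma 1 (2 * m ^ 2)))).card : ℝ) ≤ ε * M

open Classical in
/-- (AAN, assume `hO : StODD`, `hE : StEXA`, `hD : StDIV`, `hP : StPRP`.) PROOF. `T` = the set `P` of DIV for `q = 3`, `a = 1`, `p₀ = 1`, `ε / 3`. `M = ⌊√C log N⌋`. Let `n ≤ N` be counted, `n > max T` (fewer than `(ε / 9) N` others), `k ≤ C (log n) ^ 2`, `2 n + σ(k)` prime, so odd: `k = m ^ 2` or `k = 2 m ^ 2`, `m ≤ M` (ODD). If all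
`q ∈ T` divide `σ(k)`, then no `q ∈ T` divides `n` (otherwise `q ∣ 2 n + σ(k)`, `q < 2 n + σ(k)`): at most `(ε / 3) N` such `n`. Otherwise `m` is one of the at most `|T| ε' M` exceptional numbers of EXA, and for each of them (and each of the two values of `σ(k)`) PRP (`Q = 1`, `h = σ(k)`) gives at most `C' N / log N` numbers `n`:
in total at most `2 |T| ε' M C' N / log N ≤ 2 |T| ε' C' √C N`, which is `≤ (ε / 3) N` for a suitable `ε'`. -/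
def StAAN : Prop := ∀ C ε : ℝ, 0 < C → 0 < ε → ∃ N₀ : ℕ, ∀ N : ℕ, N₀ ≤ N →
  (((Icc 1 N).filter (fun n : ℕ => ∃ k : ℕ, 0 < k ∧ (k : ℝ) ≤ C * Real.log n ^ 2 ∧ (2 * n + sigma 1 k).Prime)).card : ℝ) ≤ ε * N

/-! ## B. The sieve -/

/-- (MR3, assume `hS : StSW`.) Mertens modulo 3. PROOF. StSW with `q = 3`, `A = 2`: `θ(y; 3, j) = ∑_{n ≤ y, n ≡ j} th n = y / 2 + O(y / (log y) ^ 2)`, and Abel summation (`∑_{l ≤ y} 1 / l = ∑ th l / (l log l)`; sum over `n ≤ y` of `θ(n; 3, j)(1 / (n log n) - 1 / ((n + 1) log (n + 1)))`). Only these two inequalities are needed. -/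
def StMR3 : Prop := ∃ C : ℝ, 0 < C ∧ ∀ y : ℝ, 3 ≤ y →
  Real.log (Real.log y) / 2 - C ≤ ∑ l ∈ (Icc 1 ⌊y⌋₊).filter (fun l => l.Prime ∧ l % 3 = 1), (1 : ℝ) / l ∧
  ∑ l ∈ (Icc 1 ⌊y⌋₊).filter (fun l => l.Prime ∧ l % 3 = 2), (1 : ℝ) / l ≤ Real.log (Real.log y) / 2 + C

open Classical in
/-- (SVU, assume `hF : StFL`, `hM : StMT`.) The upper bound sieve. PROOF. As module SIEVE of project KN (`Pool/Agent/Helper66/KN/`, statement `StSieve` in `Helper93/KN/St.lean`): `StFL` with `κ = 3`, `ε = 1` gives `B₀`, `w = ⌊Y ^ δ⌋`, `δ = 1 / (4 B₀ + 8)`; `Q` the primes `7 ≤ l ≤ w`, `g l = |S l| / l ≤ 3 / l ≤ 1 / 2`. Count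
`≤ 2 Y ∏ (1 - g l) + w ^ (2 B₀)`, `∏ (1 - g l) ≤ exp(- ∑ g l)`, and `w ^ (2 B₀) ≤ Y ^ (1/2) ≤ C Y exp(- ∑ g l)` because `∑ g l ≤ 3 ∑_{l ≤ Y} 1 / l ≤ 3 log log Y + C` (StMT). -/
def StSVU : Prop := ∃ C δ : ℝ, 0 < C ∧ 0 < δ ∧ δ ≤ 1 / 4 ∧ ∀ Y : ℕ, 2 ≤ Y → ∀ S : ℕ → Finset ℕ,
  (∀ l : ℕ, l.Prime → 7 ≤ l → (∀ s ∈ S l, s < l) ∧ (S l).card ≤ 3) →
  (((Icc 1 Y).filter (fun m : ℕ => ∀ l : ℕ, l.Prime → 7 ≤ l → (l : ℝ) ≤ (Y : ℝ) ^ δ → m % l ∉ S l)).card : ℝ) ≤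
    C * Y * Real.exp (-∑ l ∈ (Icc 7 ⌊(Y : ℝ) ^ δ⌋₊).filter Nat.Prime, ((S l).card : ℝ) / l)

open Classical in
/-- (CN1, assume `hS : StSVU`, `hM : StMT`.) PROOF. SVU with `Y = y`, `S l = {0}` for `l < x ^ (2/5)` and `S l = ∅` otherwise; `∑ ≥ ∑_{7 ≤ l ≤ x ^ δ'} 1 / l ≥ log log x - C` with `δ' = min(7 δ / 8, 1/5)` (StMT). -/
def StCN1 : Prop := ∃ C : ℝ, 0 < C ∧ ∃ x₀ : ℕ, ∀ x y : ℕ, x₀ ≤ x → (x : ℝ) ^ (7 / 8 : ℝ) ≤ y → (y : ℝ) ≤ (x : ℝ) ^ (2 : ℝ) →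
  (((Icc 1 y).filter (fun m => ∀ l : ℕ, l.Prime → l ∣ m → (x : ℝ) ^ (2 / 5 : ℝ) ≤ l)).card : ℝ) ≤ C * (y / Real.log x)

open Classical in
/-- (CN2, assume `hS : StSVU`, `hM : StMT`, `h3 : StMR3`.) PROOF. SVU with `Y = y` (`y ^ δ ≤ x ^ (3/8) ≤ x / 2`), `S l = {0} ∪ {r < l : l ∣ r ^ 2 + r + 1}` for `l ≡ 1 (3)` (three classes: `- 3` is a square modulo `l`, the two roots are different and not 0), `S l = {0}` for `l ≡ 2 (3)`. If `Al x p` and `p % l ∈ S l`, `l ≤ y ^ δ`, then `l ∣ p`,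
`p = l ≤ y ^ δ ≤ y ^ (1/4)`. `∑ |S l| / l ≥ ∑ 1 / l + 2 ∑_{l ≡ 1} 1 / l - C ≥ 2 log log y - C` (`log y ≥ (log x) / 4`). -/
def StCN2 : Prop := ∃ C : ℝ, 0 < C ∧ ∃ x₀ : ℕ, ∀ x y : ℕ, x₀ ≤ x → (x : ℝ) ^ (1 / 4 : ℝ) ≤ y → (y : ℝ) ≤ (x : ℝ) ^ (3 / 2 : ℝ) →
  (((Icc 1 y).filter (fun p => Al x p)).card : ℝ) ≤ C * (y / Real.log x ^ 2)

open Classical in
/-- (CN3, assume `hS : StSVU`, `hM : StMT`, `h3 : StMR3`.) PROOF. As CN2, with `S l = {0, 1, l - 2}` for `l ≡ 2 (3)`, `l > (log x) ^ 13` (`p ^ 2 + p + 1 ≡ 3` iff `(p - 1)(p + 2) ≡ 0`). `∑ |S l| / l ≥ 3 ∑ 1 / l - 2 ∑_{l ≡ 2, l ≤ (log x) ^ 13} 1 / l - C ≥ 3 log log y - log log ((log x) ^ 13) - C`, and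
`exp(log log ((log x) ^ 13)) = 13 log log x`. -/
def StCN3 : Prop := ∃ C : ℝ, 0 < C ∧ ∃ x₀ : ℕ, ∀ x y : ℕ, x₀ ≤ x → x ≤ y → (y : ℝ) ≤ (x : ℝ) ^ (5 / 4 : ℝ) →
  (((Icc 1 y).filter (fun p => Al3 x p)).card : ℝ) ≤ C * (y * Real.log (Real.log x) / Real.log x ^ 3)

open Classical in
/-- (PPP, assume `h2 : StCN2`.) PROOF. `Al x p` implies `p ≥ √(x / 2) - 1 ≥ x ^ (2/5)` (a prime factor of `p ^ 2 + p + 1` is `> x / 2`). Let `p ≤ p'`, so `x ^ (2/5) ≤ p ≤ √M ≤ x ^ (5/8)` and `M / p ≥ √M ≥ x ^ (1/2)`: for given `p` at most `C (M / p) / (log x) ^ 2` numbers `p' ≤ M / p` (CN2).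
`∑ 1 / p` over the `p` with `Al x p` in `[y, 2 y)`, `x ^ (2/5) ≤ y ≤ x ^ (5/8)`, is at most `(1 / y) C (2 y) / (log x) ^ 2`, and there are at most `log x` dyadic ranges: the sum over all `p` is at most `C' / log x`. -/
def StPPP : Prop := ∃ C : ℝ, 0 < C ∧ ∃ x₀ : ℕ, ∀ x M : ℕ, x₀ ≤ x → x ≤ M → (M : ℝ) ≤ (x : ℝ) ^ (5 / 4 : ℝ) →
  (((Icc 1 M).filter (fun m => ∃ p p' : ℕ, Al x p ∧ Al x p' ∧ m = p * p')).card : ℝ) ≤ C * (M / Real.log x ^ 3)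

open Classical in
/-- (PWF, no hypotheses.) PROOF. Every squareful `s ≥ 1` is `a ^ 2 b ^ 3`. Number: `∑_b √(Y / b ^ 3) ≤ 3 √Y`. Sum: `∑_b b ^ (-3) ∑_{a ^ 2 > Z / b ^ 3} a ^ (-2) ≤ ∑_b b ^ (-3) min(2, 2 √(b ^ 3 / Z) + ..) ≤ C / √Z` (`∑_{a > t} a ^ (-2) ≤ 2 / t` for `t ≥ 1`, `≤ 2` in general, so `≤ 2 min(1, 1 / t)` for all `t > 0`). -/
def StPWF : Prop := ∃ C : ℝ, 0 < C ∧ (∀ Y : ℕ, 1 ≤ Y → (((Icc 1 Y).filter Pw).card : ℝ) ≤ C * √(Y : ℝ)) ∧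
  ∀ (Y : ℕ) (Z : ℝ), 1 ≤ Z → ∑ s ∈ (Icc 1 Y).filter (fun s => Pw s ∧ Z < (s : ℝ)), (1 : ℝ) / s ≤ C / √Z

/-! ## C. The survivors -/

/-- (STR, no hypotheses.) PROOF. Let `t` be the product of the primes exactly dividing `m`, `s = m / t`: `s` is squareful, `t` squarefree, coprime. (1) `p ∣ t`: `σ(m ^ 2)` is a multiple of `σ(p ^ 2) = p ^ 2 + p + 1`. A prime `l ∣ p ^ 2 + p + 1` is odd, and `l = 3` or `l ≡ 1 (3)` (`p` has order 3 modulo `l`), so `rs x l = 0`; if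
`2 l ≤ x` this contradicts `m ∈ Sv x M`. So `Al x p`. (2) Let `1 < s ≤ (log x) ^ 4`; `s ≥ 4`. `σ(s ^ 2) ≤ s ^ 2 (1 + 2 log s) ≤ s ^ 3 ≤ (log x) ^ 12` is odd and `> 1`; a prime factor `l` of it satisfies `l ≤ (log x) ^ 13`, `2 l ≤ x`, `rs x l = 0`, `l ∣ σ(m ^ 2)`: contradiction.
(3) `s = 1` and `t = m = p`: `σ(m ^ 2) = p ^ 2 + p + 1` and `rs x l = 3` for the `l` in Al3. (4) `Al x p` implies `p ^ 2 + p + 1 > x / 2`, `p > √(x / 2) - 1`; three such primes have a product `> x ^ (5/4)` for large `x`. -/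
def StSTR : Prop := ∃ x₀ : ℕ, ∀ x M m : ℕ, x₀ ≤ x → (M : ℝ) ≤ (x : ℝ) ^ (5 / 4 : ℝ) → m ∈ Sv x M →
  ∃ s t : ℕ, m = s * t ∧ Nat.Coprime s t ∧ Pw s ∧ Squarefree t ∧ (s = 1 ∨ Real.log x ^ 4 < (s : ℝ)) ∧
    (∀ p : ℕ, p.Prime → p ∣ t → Al x p ∧ (x : ℝ) ^ (2 / 5 : ℝ) ≤ p) ∧ (s = 1 → t.Prime → Al3 x t) ∧ t.primeFactors.card ≤ 2

/-- (SUR, assume `hS : StSTR`, `h1 : StCN1`, `h3 : StCN3`, `hP : StPPP`, `hW : StPWF`.) PROOF. STR. `s = 1`: `t = 1`, or `t = p` with Al3 (CN3), or `t = p p'` (PPP). `(log x) ^ 4 < s ≤ M ^ (1/8)`: `t ≤ M / s` has all prime factors `≥ x ^ (2/5)` and `⌊M / s⌋ ≥ x ^ (7/8)` (or a little less: use `M / s ≥ M ^ (7/8) ≥ x ^ (7/8)`, so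
`⌊M / s⌋ ≥ x ^ (7/8) - 1`; enlarge the range to `y = ⌊M / s⌋ + 1`): CN1 gives `C (M / s) / log x`, and `∑ 1 / s ≤ C / (log x) ^ 2` (PWF). `s > M ^ (1/8)`: at most `∑ M / s ≤ C M ^ (15/16)` (PWF). -/
def StSUR : Prop := ∃ C : ℝ, 0 < C ∧ ∃ x₀ : ℕ, ∀ x M : ℕ, x₀ ≤ x → x ≤ M → (M : ℝ) ≤ (x : ℝ) ^ (5 / 4 : ℝ) →
  ((Sv x M).card : ℝ) ≤ C * (M * Real.log (Real.log x) / Real.log x ^ 3)

/-- (FN2, assume `hS : StSUR`, `hP : StPIP`, `hO : StODD`, `hV : StDVQ`.) PROOF. `M = ⌊c₁ x (log x) ^ 2 / log log x⌋ ≤ x ^ (5/4)`, `c₁ = min(1, 1 / (32 C))`: `|Sv x M| ≤ C c₁ x / log x ≤ x / (32 log x)`, at most the number of the primes in `(x / 2, x]` (PIP, `Q = 1`). Choose an injection `m ↦ l_m` of `Sv x M` into these primes, and by the Chinese remainder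
theorem `n ∈ [P, 2 P)`, `P = ∏_{l ≤ x, l odd prime} l`, with `2 n ≡ - rs x l` modulo `l` for `l ≤ x / 2` and `2 n ≡ - σ(m ^ 2)` modulo `l_m` (`2` is invertible modulo `l`; `n ≥ P > x` for large `x`). Let `1 ≤ k ≤ M ^ 2`. If `σ(k)` is even, `2 n + σ(k)` is even and `> 2`. Otherwise (ODD) `k = 2 m ^ 2`, and `3 ∣ n`, `3 ∣ σ(k)` (`rs x 3 = 0`, DVQ), or
`k = m ^ 2`, `m ≤ M`; if `m ∉ Sv x M` some `l ≤ x / 2` divides `2 n + σ(k)`, otherwise `l_m` does. In all cases `2 n + σ(k) > x` has a prime factor `≤ x`, so it is not prime. Size: `log n ≤ log (2 P) ≤ 2 x` (`primorial_le_4_pow`), and `log n ≥ log P ≥ x / 40` (the primes in `(x / 2, x]`, PIP). So `log log n ≤ 2 log x`,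
`log log log n ≥ (log log x) / 2`, and `(log n) ^ 2 (log log n) ^ 4 / (log log log n) ^ 2 ≤ 256 (x (log x) ^ 2 / log log x) ^ 2`; take `c = (c₁ / 2) ^ 2 / 256`. -/
def StFN2 : Prop := ∃ c : ℝ, 0 < c ∧ ∀ n₀ : ℕ, ∃ n : ℕ, n₀ ≤ n ∧ ∀ k : ℕ, 0 < k →
  (k : ℝ) ≤ c * (Real.log n ^ 2 * Real.log (Real.log n) ^ 4 / Real.log (Real.log (Real.log n)) ^ 2) →
  ¬ (2 * n + sigma 1 k).Prime

end Pool.Agent.Helper30.LK
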